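import Pool.Agent.SD5.Par

/-!
# Sidon sets in groups of exponent three: the bound
-/

set_option autoImplicit false

namespace Pool.Agent.SD5

open Finset

set_option linter.unusedSectionVars false

variable {G : Type*} [AddCommGroup G] [Fintype G] [DecidableEq G] {A : Finset G}

theorem sum_Ff : ∑ x : G, (Ff A x).card = (Uf A).card * A.card := by
  have h := Finset.sum_card_bipartiteAbove_eq_sum_card_bipartiteBelow
    (s := (Finset.univ : Finset G)) (t := A) (fun x a => x - a ∈ Uf A)
  simp only [Finset.bipartiteAbove, Finset.bipartiteBelow] at h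
  have h1 : ∀ a : G, (Finset.univ.filter fun x => x - a ∈ Uf A).card = (Uf A).card := by
    intro a
    refine Finset.card_bij (fun x _ => x - a) ?_ ?_ ?_
    · intro x hx
      exact (Finset.mem_filter.1 hx).2
    · intro x _ y _ hxy
      exact sub_left_injective hxy
    · intro g hg
      exact ⟨g + a, Finset.mem_filter.2 ⟨Finset.mem_univ _, by rwa [add_sub_cancel_right]⟩,
        add_sub_cancel_right g a⟩
  unfold Ff
  rw [h, Finset.sum_congr rfl fun a _ => h1 a, Finset.sum_const, smul_eq_mul, mul_comm]

theorem sum_off (hA : Sid A) : ∑ x : G, ((Ff A x).card * (Ff A x).card - (Ff A x).card) ≤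
    (Uf A).card * (Uf A).card - (Uf A).card := by
  have h1 : ∑ x : G, ((Ff A x).card * (Ff A x).card - (Ff A x).card) =
      ((Finset.univ : Finset G).sigma fun x => (Ff A x).offDiag).card := by
    rw [Finset.card_sigma]
    exact Finset.sum_congr rfl fun x _ => (Finset.offDiag_card _).symm
  rw [h1, ← Finset.offDiag_card]
  refine Finset.card_le_card_of_injOn (fun q => (q.1 - q.2.1, q.1 - q.2.2)) ?_ ?_
  · rintro ⟨x, a, a'⟩ hq
    rw [Finset.mem_coe, Finset.mem_sigma, Finset.mem_offDiag] at hq
    obtain ⟨-, ha, ha', hne⟩ := hq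
    dsimp only at ha ha' hne
    rw [Ff, Finset.mem_filter] at ha ha'
    rw [Finset.mem_coe, Finset.mem_offDiag]
    refine ⟨ha.2, ha'.2, fun h => hne ?_⟩
    exact sub_right_injective h
  · rintro ⟨x, a, a'⟩ hq ⟨y, b, b'⟩ hq' h
    rw [Finset.mem_coe, Finset.mem_sigma, Finset.mem_offDiag] at hq hq'
    obtain ⟨-, ha, ha', hne⟩ := hq
    obtain ⟨-, hb, hb', -⟩ := hq'
    dsimp only at ha ha' hne hb hb' h
    rw [Ff, Finset.mem_filter] at ha ha' hb hb'
    have e1 : x - a = y - b := congrArg Prod.fst h
    have e2 : x - a' = y - b' := congrArg Prod.snd h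
    have e3 : a' - a = b' - b := by
      calc a' - a = (x - a) - (x - a') := by abel
        _ = (y - b) - (y - b') := by rw [e1, e2]
        _ = b' - b := by abel
    obtain ⟨e4, e5⟩ := diff_inj hA ha'.1 ha.1 hb'.1 hb.1 (Ne.symm hne) e3
    subst e4 e5
    have e6 : x = y := sub_left_injective e1
    subst e6
    rfl

/-- The bound, up to perfect difference sets. -/
theorem bound (h3 : ∀ g : G, g + g + g = 0) (hA : Sid A) :
    A.card ^ 2 ≤ Fintype.card G ∨ Fintype.card G + A.card = A.card ^ 2 + 1 := by
  have hn := card_all hA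
  have hs := sum_Ff (A := A)
  have ho := sum_off hA
  have hm2 : A.card ≤ A.card * A.card := Nat.le_mul_self _
  have ht2 : (Uf A).card ≤ (Uf A).card * (Uf A).card := Nat.le_mul_self _
  rcases Nat.even_or_odd A.card with he | ho'
  · have h1 : ∑ x : G, (Ff A x).card ≤
        ∑ x : G, ((Ff A x).card * (Ff A x).card - (Ff A x).card) := by
      refine Finset.sum_le_sum fun x _ => ?_
      have h2 : Even (Ff A x).card := by
        by_cases hx : x ∈ A
        · rw [Ff_mem hx, Finset.card_empty]
          exact Even.zero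
        · exact (par h3 hA hx).2 he
      obtain ⟨k, hk⟩ := h2
      rw [hk]
      rcases Nat.eq_zero_or_pos k with h0 | h0
      · rw [h0]
      · have : (k + k) + (k + k) ≤ (k + k) * (k + k) := by nlinarith
        omega
    have h4 : (Uf A).card * A.card ≤ (Uf A).card * (Uf A).card - (Uf A).card := by
      rw [← hs]
      exact h1.trans ho
    generalize (Uf A).card = t at hn h4 ht2
    generalize A.card = m at hn h4 hm2 ⊢
    rcases Nat.eq_zero_or_pos t with h0 | h0
    · right
      subst h0
      rw [pow_two]
      omega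
    · left
      have h5 : m + 1 ≤ t := by
        by_contra hcon
        push Not at hcon
        have h6 : t ≤ m := by omega
        have h7 : t * t ≤ t * m := Nat.mul_le_mul_left t h6
        omega
      rw [pow_two]
      omega
  · left
    have h1 : Fintype.card G - A.card ≤ ∑ x : G, (Ff A x).card := by
      have h2 : (Aᶜ).card = Fintype.card G - A.card := Finset.card_compl A
      rw [← h2, Finset.card_eq_sum_ones]
      refine (Finset.sum_le_sum fun x hx => ?_).trans
        (Finset.sum_le_sum_of_subset (Finset.subset_univ Aᶜ))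
      have h5 : ¬ Even (Ff A x).card := fun h =>
        (Nat.not_even_iff_odd.2 ho') ((par h3 hA (Finset.mem_compl.1 hx)).1 h)
      have h6 : (Ff A x).card ≠ 0 := fun h => h5 (by rw [h]; exact Even.zero)
      omega
    rw [hs] at h1
    generalize (Uf A).card = t at hn h1 ht2
    generalize hm : A.card = m at hn h1 hm2 ⊢
    obtain ⟨j, hj⟩ := ho'
    rw [hm] at hj
    rw [pow_two]
    rcases Nat.eq_zero_or_pos j with h0 | h0
    · subst h0
      rw [hj] at hn ⊢
      omega
    · have h7 : Fintype.card G ≤ t * m + m := by omega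
      have h8 : t + m * m - m + 1 ≤ t * m + m := by omega
      have h9 : m - 1 ≤ t := by
        rw [hj] at h8 ⊢
        have h10 : t + (2 * j + 1) * (2 * j + 1) + 1 ≤ t * (2 * j + 1) + 2 * (2 * j + 1) := by
          omega
        by_contra hcon
        push Not at hcon
        have h11 : t + 1 ≤ 2 * j := by omega
        nlinarith
      omega

/-- Sidon sets in `ℤ_3^r`, `r ≥ 2`, have at most `3^(r/2)` elements. -/
theorem sidon_three {r : ℕ} (hr : 2 ≤ r) {A : Finset (Fin r → ZMod 3)} (hA : Sid A) :
    A.card ^ 2 ≤ 3 ^ r := by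
  have hc : Fintype.card (Fin r → ZMod 3) = 3 ^ r := by
    rw [Fintype.card_fun, ZMod.card, Fintype.card_fin]
  have h3 : ∀ g : Fin r → ZMod 3, g + g + g = 0 := by
    intro g
    funext i
    rw [Pi.add_apply, Pi.add_apply, Pi.zero_apply]
    generalize g i = z
    revert z
    decide
  rcases bound h3 hA with h | h
  · rwa [hc] at h
  · exfalso
    rw [hc] at h
    obtain ⟨s, rfl⟩ := Nat.exists_eq_add_of_le hr
    have h1 : ((3 ^ (2 + s) + A.card : ℕ) : ZMod 9) = ((A.card ^ 2 + 1 : ℕ) : ZMod 9) := by
      rw [h]
    push_cast at h1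
    rw [pow_add, show ((3 : ZMod 9) ^ 2) = 0 by decide, zero_mul, zero_add] at h1
    generalize ((A.card : ℕ) : ZMod 9) = z at h1
    revert z
    decide

end Pool.Agent.SD5
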