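import Mathlib

/-!
# Sidon sets in groups of exponent three: parity of the representations
-/

set_option autoImplicit false

namespace Pool.Agent.SD5

open Finset

set_option linter.unusedSectionVars false

variable {G : Type*} [AddCommGroup G] [Fintype G] [DecidableEq G] {A : Finset G}

/-- all sums of two elements are different, up to the order -/
def Sid (A : Finset G) : Prop :=
  ∀ a ∈ A, ∀ b ∈ A, ∀ c ∈ A, ∀ d ∈ A, a + b = c + d → (a = c ∧ b = d) ∨ (a = d ∧ b = c)

/-- the nonzero differences -/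
def Df (A : Finset G) : Finset G := A.offDiag.image fun p => p.1 - p.2

/-- the nonzero elements which are not differences -/
def Uf (A : Finset G) : Finset G := (insert 0 (Df A))ᶜ

/-- the elements of `A` whose distance to `x` is not a difference -/
def Ff (A : Finset G) (x : G) : Finset G := A.filter fun a => x - a ∈ Uf A

theorem diff_inj (hA : Sid A) {a b c d : G} (ha : a ∈ A) (hb : b ∈ A) (hc : c ∈ A) (hd : d ∈ A)
    (hab : a ≠ b) (h : a - b = c - d) : a = c ∧ b = d := by
  have h1 : a + d = c + b := by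
    have h2 : a = c - d + b := by rw [← h]; abel
    rw [h2]
    abel
  rcases hA a ha d hd c hc b hb h1 with ⟨h2, h3⟩ | ⟨h2, h3⟩
  · exact ⟨h2, h3.symm⟩
  · exact absurd h2 hab

theorem mem_Df {g : G} : g ∈ Df A ↔ ∃ b ∈ A, ∃ c ∈ A, b ≠ c ∧ b - c = g := by
  unfold Df
  rw [Finset.mem_image]
  constructor
  · rintro ⟨p, hp, h⟩
    rw [Finset.mem_offDiag] at hp
    exact ⟨p.1, hp.1, p.2, hp.2.1, hp.2.2, h⟩
  · rintro ⟨b, hb, c, hc, hbc, h⟩
    exact ⟨(b, c), Finset.mem_offDiag.2 ⟨hb, hc, hbc⟩, h⟩

theorem mem_Uf {g : G} : g ∈ Uf A ↔ g ≠ 0 ∧ g ∉ Df A := by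
  unfold Uf
  rw [Finset.mem_compl, Finset.mem_insert, not_or]

theorem card_Df (hA : Sid A) : (Df A).card = A.card * A.card - A.card := by
  unfold Df
  rw [Finset.card_image_of_injOn, Finset.offDiag_card]
  rintro ⟨a, b⟩ hp ⟨c, d⟩ hq h
  rw [Finset.mem_coe, Finset.mem_offDiag] at hp hq
  obtain ⟨h1, h2⟩ := diff_inj hA hp.1 hp.2.1 hq.1 hq.2.1 hp.2.2 h
  exact Prod.ext h1 h2

theorem card_all (hA : Sid A) :
    (Uf A).card + (A.card * A.card - A.card) + 1 = Fintype.card G := by
  have h0 : (0 : G) ∉ Df A := by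
    rw [mem_Df]
    rintro ⟨b, -, c, -, hbc, h⟩
    exact hbc (sub_eq_zero.1 h)
  have h1 : (insert (0 : G) (Df A)).card = (A.card * A.card - A.card) + 1 := by
    rw [Finset.card_insert_of_notMem h0, card_Df hA]
  have h2 : (Uf A).card = Fintype.card G - (insert (0 : G) (Df A)).card := by
    unfold Uf
    rw [Finset.card_compl]
  have h3 := Finset.card_le_univ (insert (0 : G) (Df A))
  omega

/-- the pairs `(a, b)` with `a + b - x ∈ A` -/
def Qf (A : Finset G) (x : G) : Finset (G × G) := (A ×ˢ A).filter fun p => p.1 + p.2 - x ∈ A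

theorem mem_Qf {x : G} {p : G × G} : p ∈ Qf A x ↔ (p.1 ∈ A ∧ p.2 ∈ A) ∧ p.1 + p.2 - x ∈ A := by
  unfold Qf
  rw [Finset.mem_filter, Finset.mem_product]

theorem even_Qf (h3 : ∀ g : G, g + g + g = 0) {x : G} (hx : x ∉ A) : Even (Qf A x).card := by
  have hd : ∀ a : G, a + a - x = -x - a := by
    intro a
    have h := h3 a
    have : a + a = -a := by
      rw [eq_neg_iff_add_eq_zero]
      exact h
    rw [this]
    abel
  have hsum : (∑ p ∈ Qf A x, (1 : ZMod 2)) = 0 := by
    refine Finset.sum_involution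
      (fun p _ => if p.1 = p.2 then (-x - p.1, -x - p.1) else (p.2, p.1)) ?_ ?_ ?_ ?_
    · intro p _
      decide
    · rintro ⟨a, b⟩ hp - h
      obtain ⟨⟨ha, hb⟩, -⟩ := mem_Qf.1 hp
      dsimp only at ha hb h
      split_ifs at h with hab
      · have h1 : -x - a = a := congrArg Prod.fst h
        apply hx
        have h2 : x = a := by
          have h4 := h3 a
          have h5 : x = -(a + a) := by
            rw [eq_neg_iff_add_eq_zero]
            calc x + (a + a) = (a - (-x - a)) := by abel
              _ = 0 := by rw [h1, sub_self]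
          rw [h5, eq_comm, eq_neg_iff_add_eq_zero]
          calc a + (a + a) = a + a + a := by abel
            _ = 0 := h4
        rw [h2]
        exact ha
      · exact hab (congrArg Prod.fst h).symm
    · rintro ⟨a, b⟩ hp
      obtain ⟨⟨ha, hb⟩, hc⟩ := mem_Qf.1 hp
      dsimp only at ha hb hc ⊢
      split_ifs with hab
      · subst hab
        have hc' : -x - a ∈ A := by
          rw [← hd a]
          exact hc
        refine mem_Qf.2 ⟨⟨hc', hc'⟩, ?_⟩
        dsimp only
        rw [hd]
        have : -x - (-x - a) = a := by abel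
        rw [this]
        exact ha
      · refine mem_Qf.2 ⟨⟨hb, ha⟩, ?_⟩
        dsimp only
        rw [add_comm b a]
        exact hc
    · rintro ⟨a, b⟩ hp
      dsimp only
      by_cases hab : a = b
      · subst hab
        simp
      · rw [if_neg hab]
        dsimp only
        rw [if_neg (Ne.symm hab)]
  rw [Finset.sum_const, nsmul_eq_mul, mul_one] at hsum
  exact (ZMod.natCast_eq_zero_iff_even).1 hsum

/-- The elements of `A` at a distance from `x` which is a difference are in bijection with `Qf`. -/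
theorem card_Sf (hA : Sid A) {x : G} (hx : x ∉ A) :
    (A.filter fun a => x - a ∈ Df A).card = (Qf A x).card := by
  symm
  refine Finset.card_bij (fun p _ => p.1) ?_ ?_ ?_
  · rintro ⟨a, b⟩ hp
    obtain ⟨⟨ha, hb⟩, hc⟩ := mem_Qf.1 hp
    dsimp only at ha hb hc ⊢
    rw [Finset.mem_filter, mem_Df]
    refine ⟨ha, b, hb, a + b - x, hc, ?_, by abel⟩
    intro h
    apply hx
    have : x = a := by
      have h1 : x = a + b - (a + b - x) := by abel
      rw [h1, ← h]
      abel
    rw [this]
    exact ha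
  · rintro ⟨a, b⟩ hp ⟨a', b'⟩ hp' h
    obtain ⟨⟨ha, hb⟩, hc⟩ := mem_Qf.1 hp
    obtain ⟨⟨ha', hb'⟩, hc'⟩ := mem_Qf.1 hp'
    dsimp only at ha hb hc ha' hb' hc' h
    subst h
    have hne : b ≠ a + b - x := by
      intro h
      apply hx
      have : x = a := by
        have h1 : x = a + b - (a + b - x) := by abel
        rw [h1, ← h]
        abel
      rw [this]
      exact ha
    have h2 : b - (a + b - x) = b' - (a + b' - x) := by abel
    obtain ⟨h3, -⟩ := diff_inj hA hb hc hb' hc' hne h2
    rw [h3]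
  · intro a ha
    rw [Finset.mem_filter, mem_Df] at ha
    obtain ⟨ha, b, hb, c, hc, hbc, h⟩ := ha
    refine ⟨(a, b), mem_Qf.2 ⟨⟨ha, hb⟩, ?_⟩, rfl⟩
    dsimp only
    have : a + b - x = c := by
      have h1 : x = b - c + a := by rw [h]; abel
      rw [h1]
      abel
    rw [this]
    exact hc

/-- The parity of the number of non-differences. -/
theorem par (h3 : ∀ g : G, g + g + g = 0) (hA : Sid A) {x : G} (hx : x ∉ A) :
    Even (Ff A x).card ↔ Even A.card := by
  have h1 : (Ff A x).card + (Qf A x).card = A.card := by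
    rw [← card_Sf hA hx, ← Finset.card_filter_add_card_filter_not (s := A)
      (fun a => x - a ∈ Df A), add_comm]
    congr 1
    unfold Ff
    congr 1
    ext a
    rw [Finset.mem_filter, Finset.mem_filter, mem_Uf]
    constructor
    · rintro ⟨ha, -, h⟩
      exact ⟨ha, h⟩
    · rintro ⟨ha, h⟩
      refine ⟨ha, fun h0 => hx ?_, h⟩
      rw [sub_eq_zero.1 h0]
      exact ha
  have h2 := even_Qf h3 hx
  rw [← h1, Nat.even_add]
  simp [h2]

/-- In `A` itself there are none. -/
theorem Ff_mem {x : G} (hx : x ∈ A) : Ff A x = ∅ := by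
  rw [Finset.eq_empty_iff_forall_notMem]
  intro a ha
  unfold Ff at ha
  rw [Finset.mem_filter, mem_Uf, mem_Df] at ha
  obtain ⟨ha, h0, h⟩ := ha
  exact h ⟨x, hx, a, ha, fun he => h0 (sub_eq_zero.2 he), rfl⟩

end Pool.Agent.SD5
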